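import Mathlib

set_option autoImplicit false

namespace Pool.Agent.E8helper83.TP

open Finset

/-- the tree with the edges `01`, `02`, `03`, `34`: one vertex of degree 3 and one of degree 2,
adjacent to each other -/
def yTree : SimpleGraph (Fin 5) :=
  SimpleGraph.fromEdgeSet {s(0, 1), s(0, 2), s(0, 3), s(3, 4)}

instance : DecidableRel yTree.Adj := by
  unfold yTree
  infer_instance

instance pathDec : DecidableRel (SimpleGraph.pathGraph 5).Adj := fun u v =>
  decidable_of_iff (u.val + 1 = v.val ∨ v.val + 1 = u.val) SimpleGraph.pathGraph_adj.symm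

/-- automorphisms as permutations -/
def autEquiv (H : SimpleGraph (Fin 5)) :
    (H ≃g H) ≃ {σ : Equiv.Perm (Fin 5) // ∀ a b, H.Adj (σ a) (σ b) ↔ H.Adj a b} where
  toFun e := ⟨e.toEquiv, fun a b => e.map_rel_iff' (a := a) (b := b)⟩
  invFun σ := ⟨σ.1, fun {a b} => σ.2 a b⟩
  left_inv _ := rfl
  right_inv _ := rfl

theorem card_aut (H : SimpleGraph (Fin 5)) [DecidableRel H.Adj] :
    Nat.card (H ≃g H) = ((univ : Finset (Equiv.Perm (Fin 5))).filter
      (fun σ => ∀ a b, H.Adj (σ a) (σ b) ↔ H.Adj a b)).card := by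
  rw [Nat.card_congr (autEquiv H), Nat.card_eq_fintype_card, Fintype.card_subtype]

theorem aut_y : Nat.card (yTree ≃g yTree) = 2 := by
  rw [card_aut]
  decide +kernel

theorem aut_path : Nat.card (SimpleGraph.pathGraph 5 ≃g SimpleGraph.pathGraph 5) = 2 := by
  rw [card_aut]
  decide +kernel

theorem aut_star : Nat.card (SimpleGraph.starGraph (0 : Fin 5) ≃g SimpleGraph.starGraph (0 : Fin 5)) = 24 := by
  rw [card_aut]
  decide +kernel

end Pool.Agent.E8helper83.TP
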