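import Mathlib

/-!
Labelled and unlabelled copies: the number of labelled copies is the number of copies times the
number of automorphisms.
-/

set_option autoImplicit false

namespace Pool.Agent.E8helper83.TP

open Finset

section copies

variable {V W : Type} {G : SimpleGraph V} {H : SimpleGraph W}

/-- the copy attached to a subgraph and an isomorphism -/
def mkCopy (G' : G.Subgraph) (e : H ≃g G'.coe) : SimpleGraph.Copy H G :=
  ⟨G'.hom.comp e.toHom, SimpleGraph.Subgraph.hom_injective.comp e.injective⟩

theorem mkCopy_apply (G' : G.Subgraph) (e : H ≃g G'.coe) (x : W) :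
    mkCopy G' e x = (e x : V) := rfl

theorem mkCopy_toSubgraph (G' : G.Subgraph) (e : H ≃g G'.coe) :
    (mkCopy G' e).toSubgraph = G' := by
  simp [SimpleGraph.Copy.toSubgraph, mkCopy, SimpleGraph.Subgraph.map_comp]

theorem card_copies [Finite V] [Finite W] :
    Nat.card (SimpleGraph.Copy H G)
      = Nat.card {G' : G.Subgraph // Nonempty (H ≃g G'.coe)} * Nat.card (H ≃g H) := by
  classical
  rw [← Nat.card_prod]
  symm
  apply Nat.card_congr
  refine Equiv.ofBijective
    (fun p : {G' : G.Subgraph // Nonempty (H ≃g G'.coe)} × (H ≃g H) =>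
      mkCopy p.1.1 (p.2.trans (Classical.choice p.1.2))) ⟨?_, ?_⟩
  · rintro ⟨⟨G1, h1⟩, σ1⟩ ⟨⟨G2, h2⟩, σ2⟩ h
    simp only at h
    have hG : G1 = G2 := by
      rw [← mkCopy_toSubgraph G1 (σ1.trans (Classical.choice h1)), h, mkCopy_toSubgraph]
    subst hG
    congr 1
    apply RelIso.ext
    intro x
    have hx := DFunLike.congr_fun h x
    rw [mkCopy_apply, mkCopy_apply] at hx
    have hx2 := Subtype.ext hx
    rw [RelIso.trans_apply, RelIso.trans_apply] at hx2
    exact (Classical.choice h1).injective hx2
  · intro f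
    refine ⟨(⟨f.toSubgraph, ⟨f.isoToSubgraph⟩⟩,
      f.isoToSubgraph.trans (Classical.choice ⟨f.isoToSubgraph⟩ : H ≃g f.toSubgraph.coe).symm), ?_⟩
    apply SimpleGraph.Copy.ext
    intro x
    rw [mkCopy_apply]
    simp only [RelIso.trans_apply, RelIso.apply_symm_apply]
    rfl

theorem copyCount_mul [Fintype V] [Fintype W] :
    Nat.card (SimpleGraph.Copy H G) = G.copyCount H * Nat.card (H ≃g H) := by
  classical
  have h := card_copies (G := G) (H := H)
  rw [SimpleGraph.copyCount]
  rw [h]
  congr 1
  rw [Nat.card_eq_fintype_card, Fintype.card_subtype]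

end copies

end Pool.Agent.E8helper83.TP
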