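import Mathlib
import Pool.Agent.E8helper83.TPCopies
import Pool.Agent.E8helper83.TPAut

/-!
The numbers of the paths, stars and Y-trees on five vertices in a tree, in terms of the degrees.
-/

set_option autoImplicit false
set_option linter.unusedSectionVars false
set_option linter.unusedSimpArgs false

namespace Pool.Agent.E8helper83.TP

open Finset SimpleGraph

variable {V : Type} [Fintype V] [DecidableEq V] (T : SimpleGraph V) [DecidableRel T.Adj]

/-- `x v = deg v - 1` -/
def x (v : V) : ℕ := T.degree v - 1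

variable {T}

/-! ### no short cycles -/

theorem no_tri (hT : T.IsAcyclic) {a b c : V} (h1 : T.Adj a b) (h2 : T.Adj b c) (h3 : T.Adj c a) :
    False := by
  refine hT (Walk.cons h1 (Walk.cons h2 (Walk.cons h3 Walk.nil))) ?_
  have hab := h1.ne
  have hbc := h2.ne
  have hca := h3.ne
  simp [Walk.isCycle_def, Walk.isTrail_def, hab, hbc, hca, hab.symm, hbc.symm, hca.symm]

theorem no_quad (hT : T.IsAcyclic) {a b c d : V} (h1 : T.Adj a b) (h2 : T.Adj b c)
    (h3 : T.Adj c d) (h4 : T.Adj d a) (hac : a ≠ c) (hbd : b ≠ d) : False := by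
  refine hT (Walk.cons h1 (Walk.cons h2 (Walk.cons h3 (Walk.cons h4 Walk.nil)))) ?_
  have hab := h1.ne
  have hbc := h2.ne
  have hcd := h3.ne
  have hda := h4.ne
  simp [Walk.isCycle_def, Walk.isTrail_def, hab, hbc, hcd, hda, hac, hbd, hab.symm, hbc.symm,
    hcd.symm, hda.symm, hac.symm, hbd.symm]

/-! ### counting neighbours -/

theorem card_nb {b c : V} (h : T.Adj b c) :
    ((univ : Finset V).filter (fun a => T.Adj b a ∧ a ≠ c)).card = x T b := by
  have : (univ : Finset V).filter (fun a => T.Adj b a ∧ a ≠ c) = (T.neighborFinset b).erase c := by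
    ext a
    simp [and_comm]
  rw [this, card_erase_of_mem (by simpa using h), card_neighborFinset_eq_degree]
  rfl

/-! ### paths -/

/-- the five-tuples `(c, b, d, a, e)` for which `a b c d e` is a path -/
def pathSet (T : SimpleGraph V) [DecidableRel T.Adj] : Finset (V × V × V × V × V) :=
  univ.filter (fun p => (T.Adj p.1 p.2.1 ∧ T.Adj p.1 p.2.2.1 ∧ p.2.1 ≠ p.2.2.1) ∧
    (T.Adj p.2.1 p.2.2.2.1 ∧ p.2.2.2.1 ≠ p.1) ∧ (T.Adj p.2.2.1 p.2.2.2.2 ∧ p.2.2.2.2 ≠ p.1))

theorem card_pathSet : (pathSet T).card =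
    ∑ c, ∑ b ∈ T.neighborFinset c, ∑ d ∈ (T.neighborFinset c).erase b, x T b * x T d := by
  unfold pathSet
  rw [card_filter, Fintype.sum_prod_type]
  refine sum_congr rfl fun c _ => ?_
  rw [Fintype.sum_prod_type]
  have h0 : ∀ b : V, (∑ q : V × V × V,
      if (T.Adj c b ∧ T.Adj c q.1 ∧ b ≠ q.1) ∧ (T.Adj b q.2.1 ∧ q.2.1 ≠ c) ∧
        (T.Adj q.1 q.2.2 ∧ q.2.2 ≠ c) then 1 else 0) =
      ∑ d : V, if T.Adj c b ∧ T.Adj c d ∧ b ≠ d then x T b * x T d else 0 := by
    intro b
    rw [Fintype.sum_prod_type]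
    refine sum_congr rfl fun d _ => ?_
    rw [Fintype.sum_prod_type]
    by_cases h : T.Adj c b ∧ T.Adj c d ∧ b ≠ d
    · rw [if_pos h, ← card_nb h.1.symm, ← card_nb h.2.1.symm, card_filter, card_filter, sum_mul_sum]
      refine sum_congr rfl fun a _ => sum_congr rfl fun e _ => ?_
      by_cases h1 : T.Adj b a ∧ a ≠ c <;> by_cases h2 : T.Adj d e ∧ e ≠ c <;> simp [h, h1, h2]
    · rw [if_neg h]
      refine sum_eq_zero fun a _ => sum_eq_zero fun e _ => ?_
      rw [if_neg]
      intro h'
      exact h h'.1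
  simp only [h0]
  rw [← sum_subset (s₁ := T.neighborFinset c) (subset_univ _)]
  · refine sum_congr rfl fun b hb => ?_
    rw [mem_neighborFinset] at hb
    rw [← sum_filter]
    refine sum_congr ?_ fun _ _ => rfl
    ext d
    simp [hb, and_comm, eq_comm]
  · intro b _ hb
    rw [mem_neighborFinset] at hb
    refine sum_eq_zero fun d _ => ?_
    rw [if_neg]
    intro h'
    exact hb h'.1

/-- in an acyclic graph the labelled copies of the path are the elements of `pathSet` -/
theorem card_copies_path (hT : T.IsAcyclic) :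
    Nat.card (SimpleGraph.Copy (pathGraph 5) T) = (pathSet T).card := by
  rw [← Fintype.card_coe, ← Nat.card_eq_fintype_card]
  refine Nat.card_congr
    { toFun := fun f => ⟨(f 2, f 1, f 3, f 0, f 4), ?_⟩
      invFun := fun p => ⟨⟨![p.1.2.2.2.1, p.1.2.1, p.1.1, p.1.2.2.1, p.1.2.2.2.2], ?_⟩, ?_⟩
      left_inv := ?_
      right_inv := ?_ }
  · have hadj : ∀ i j : Fin 5, (pathGraph 5).Adj i j → T.Adj (f i) (f j) :=
      fun i j h => f.toHom.map_rel h
    have hinj : ∀ i j : Fin 5, i ≠ j → f i ≠ f j := fun i j h h' => h (f.injective h')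
    simp only [pathSet, mem_filter, mem_univ, true_and]
    refine ⟨⟨hadj _ _ ?_, hadj _ _ ?_, hinj _ _ ?_⟩, ⟨hadj _ _ ?_, hinj _ _ ?_⟩, hadj _ _ ?_,
      hinj _ _ ?_⟩ <;> simp [pathGraph_adj]
  · obtain ⟨⟨c, b, d, a, e⟩, hp⟩ := p
    simp only [pathSet, mem_filter, mem_univ, true_and] at hp
    obtain ⟨⟨h1, h2, h3⟩, ⟨h4, h5⟩, h6, h7⟩ := hp
    intro i j hij
    rw [pathGraph_adj] at hij
    fin_cases i <;> fin_cases j <;> simp at hij <;>
      simp [h1, h2, h4, h6, h1.symm, h2.symm, h4.symm, h6.symm]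
  · obtain ⟨⟨c, b, d, a, e⟩, hp⟩ := p
    simp only [pathSet, mem_filter, mem_univ, true_and] at hp
    obtain ⟨⟨h1, h2, h3⟩, ⟨h4, h5⟩, h6, h7⟩ := hp
    have n1 : a ≠ d := fun h => by subst h; exact no_tri hT h1 h4 h2.symm
    have n2 : a ≠ e := fun h => by subst h; exact no_quad hT h1 h4 h6.symm h2.symm (Ne.symm h5) h3
    have n3 : b ≠ e := fun h => by subst h; exact no_tri hT h2 h6 h1.symm
    have k1 := h1.ne
    have k2 := h2.ne
    have k4 := h4.ne
    have k6 := h6.ne
    intro i j hij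
    change (![a, b, c, d, e] : Fin 5 → V) i = (![a, b, c, d, e] : Fin 5 → V) j at hij
    fin_cases i <;> fin_cases j <;> simp at hij <;> first | rfl | (exfalso; tauto)
  · intro f
    apply SimpleGraph.Copy.ext
    intro i
    fin_cases i <;> rfl
  · intro p
    rfl

/-- twice the number of paths on five vertices -/
theorem two_path (hT : T.IsAcyclic) : 2 * T.copyCount (pathGraph 5) =
    ∑ c, ∑ b ∈ T.neighborFinset c, ∑ d ∈ (T.neighborFinset c).erase b, x T b * x T d := by
  rw [← card_pathSet, ← card_copies_path hT, copyCount_mul, aut_path, mul_comm]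

/-! ### Y-trees -/

/-- the five-tuples `(u, v, w, p, q)` with the edges `u v`, `v w`, `u p`, `u q` -/
def ySet (T : SimpleGraph V) [DecidableRel T.Adj] : Finset (V × V × V × V × V) :=
  univ.filter (fun p => T.Adj p.1 p.2.1 ∧ (T.Adj p.2.1 p.2.2.1 ∧ p.2.2.1 ≠ p.1) ∧
    (T.Adj p.1 p.2.2.2.1 ∧ p.2.2.2.1 ≠ p.2.1) ∧ (T.Adj p.1 p.2.2.2.2 ∧ p.2.2.2.2 ≠ p.2.1 ∧
      p.2.2.2.2 ≠ p.2.2.2.1))

theorem card_nb2 {u v p : V} (h : T.Adj u v) (hp : T.Adj u p) (hpv : p ≠ v) :
    ((univ : Finset V).filter (fun q => T.Adj u q ∧ q ≠ v ∧ q ≠ p)).card = x T u - 1 := by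
  have : (univ : Finset V).filter (fun q => T.Adj u q ∧ q ≠ v ∧ q ≠ p) =
      ((T.neighborFinset u).erase v).erase p := by
    ext a
    simp only [mem_filter, mem_univ, true_and, mem_erase, mem_neighborFinset]
    tauto
  rw [this, card_erase_of_mem, card_erase_of_mem (by simpa using h), card_neighborFinset_eq_degree]
  · rfl
  · simp [hp, hpv]

theorem card_ySet : (ySet T).card =
    ∑ u, ∑ v ∈ T.neighborFinset u, x T v * (x T u * (x T u - 1)) := by
  unfold ySet
  rw [card_filter, Fintype.sum_prod_type]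
  refine sum_congr rfl fun u _ => ?_
  rw [Fintype.sum_prod_type]
  rw [← sum_subset (s₁ := T.neighborFinset u) (subset_univ _)]
  · refine sum_congr rfl fun v hv => ?_
    rw [mem_neighborFinset] at hv
    rw [Fintype.sum_prod_type]
    have h1 : ∀ w : V, (∑ q : V × V, if T.Adj u v ∧ (T.Adj v w ∧ w ≠ u) ∧
        (T.Adj u q.1 ∧ q.1 ≠ v) ∧ (T.Adj u q.2 ∧ q.2 ≠ v ∧ q.2 ≠ q.1) then 1 else 0) =
        (if T.Adj v w ∧ w ≠ u then 1 else 0) * (x T u * (x T u - 1)) := by
      intro w
      by_cases hw : T.Adj v w ∧ w ≠ u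
      · rw [if_pos hw, one_mul, Fintype.sum_prod_type]
        have h2 : ∀ p : V, (∑ q : V, if T.Adj u v ∧ (T.Adj v w ∧ w ≠ u) ∧
            (T.Adj u p ∧ p ≠ v) ∧ (T.Adj u q ∧ q ≠ v ∧ q ≠ p) then 1 else 0) =
            if T.Adj u p ∧ p ≠ v then x T u - 1 else 0 := by
          intro p
          by_cases hp : T.Adj u p ∧ p ≠ v
          · rw [if_pos hp, ← card_nb2 hv hp.1 hp.2, card_filter]
            refine sum_congr rfl fun q _ => ?_
            by_cases hq : T.Adj u q ∧ q ≠ v ∧ q ≠ p <;> simp [hv, hw, hp, hq]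
          · rw [if_neg hp]
            refine sum_eq_zero fun q _ => ?_
            rw [if_neg]
            tauto
        simp only [h2]
        rw [← sum_filter, sum_const, card_nb hv, smul_eq_mul]
      · rw [if_neg hw, zero_mul]
        refine sum_eq_zero fun q _ => ?_
        rw [if_neg]
        tauto
    simp only [h1]
    rw [← sum_mul, ← card_filter, card_nb hv.symm]
  · intro v _ hv
    rw [mem_neighborFinset] at hv
    refine sum_eq_zero fun q _ => ?_
    rw [if_neg]
    tauto

theorem yTree_adj (i j : Fin 5) : yTree.Adj i j ↔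
    (i = 0 ∧ (j = 1 ∨ j = 2 ∨ j = 3)) ∨ (j = 0 ∧ (i = 1 ∨ i = 2 ∨ i = 3)) ∨ (i = 3 ∧ j = 4) ∨
      (i = 4 ∧ j = 3) := by
  revert i j
  decide

/-- in an acyclic graph the labelled copies of the Y-tree are the elements of `ySet` -/
theorem card_copies_y (hT : T.IsAcyclic) :
    Nat.card (SimpleGraph.Copy yTree T) = (ySet T).card := by
  rw [← Fintype.card_coe, ← Nat.card_eq_fintype_card]
  refine Nat.card_congr
    { toFun := fun f => ⟨(f 0, f 3, f 4, f 1, f 2), ?_⟩
      invFun := fun p => ⟨⟨![p.1.1, p.1.2.2.2.1, p.1.2.2.2.2, p.1.2.1, p.1.2.2.1], ?_⟩, ?_⟩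
      left_inv := ?_
      right_inv := ?_ }
  · have hadj : ∀ i j : Fin 5, yTree.Adj i j → T.Adj (f i) (f j) :=
      fun i j h => f.toHom.map_rel h
    have hinj : ∀ i j : Fin 5, i ≠ j → f i ≠ f j := fun i j h h' => h (f.injective h')
    simp only [ySet, mem_filter, mem_univ, true_and]
    refine ⟨hadj _ _ ?_, ⟨hadj _ _ ?_, hinj _ _ ?_⟩, ⟨hadj _ _ ?_, hinj _ _ ?_⟩, hadj _ _ ?_,
      hinj _ _ ?_, hinj _ _ ?_⟩ <;> decide
  · obtain ⟨⟨u, v, w, p, q⟩, hp⟩ := p
    simp only [ySet, mem_filter, mem_univ, true_and] at hp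
    obtain ⟨h1, ⟨h2, h3⟩, ⟨h4, h5⟩, h6, h7, h8⟩ := hp
    intro i j hij
    rw [yTree_adj] at hij
    fin_cases i <;> fin_cases j <;> simp at hij <;>
      simp [h1, h2, h4, h6, h1.symm, h2.symm, h4.symm, h6.symm]
  · obtain ⟨⟨u, v, w, p, q⟩, hp⟩ := p
    simp only [ySet, mem_filter, mem_univ, true_and] at hp
    obtain ⟨h1, ⟨h2, h3⟩, ⟨h4, h5⟩, h6, h7, h8⟩ := hp
    have n1 : w ≠ p := fun h => by subst h; exact no_tri hT h1 h2 h4.symm
    have n2 : w ≠ q := fun h => by subst h; exact no_tri hT h1 h2 h6.symm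
    have k1 := h1.ne
    have k2 := h2.ne
    have k4 := h4.ne
    have k6 := h6.ne
    intro i j hij
    change (![u, p, q, v, w] : Fin 5 → V) i = (![u, p, q, v, w] : Fin 5 → V) j at hij
    fin_cases i <;> fin_cases j <;> simp at hij <;> first | rfl | (exfalso; tauto)
  · intro f
    apply SimpleGraph.Copy.ext
    intro i
    fin_cases i <;> rfl
  · intro p
    rfl

/-- twice the number of Y-trees -/
theorem two_y (hT : T.IsAcyclic) : 2 * T.copyCount yTree =
    ∑ u, ∑ v ∈ T.neighborFinset u, x T v * (x T u * (x T u - 1)) := by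
  rw [← card_ySet, ← card_copies_y hT, copyCount_mul, aut_y, mul_comm]

/-! ### stars -/

theorem card_copies_star : Nat.card (SimpleGraph.Copy (starGraph (0 : Fin 5)) T) =
    ∑ u, (T.degree u).descFactorial 4 := by
  have h1 : ∑ u, (T.degree u).descFactorial 4 =
      ∑ u, Fintype.card (Fin 4 ↪ T.neighborFinset u) := by
    refine sum_congr rfl fun u _ => ?_
    rw [Fintype.card_embedding_eq, Fintype.card_fin, Fintype.card_coe, card_neighborFinset_eq_degree]
  rw [h1, ← Fintype.card_sigma, ← Nat.card_eq_fintype_card]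
  refine Nat.card_congr
    { toFun := fun f => ⟨f 0, ⟨fun i => ⟨f i.succ, ?_⟩, ?_⟩⟩
      invFun := fun p => ⟨⟨Fin.cons p.1 (fun i => (p.2 i : V)), ?_⟩, ?_⟩
      left_inv := ?_
      right_inv := ?_ }
  · rw [mem_neighborFinset]
    refine f.toHom.map_rel ?_
    rw [starGraph_adj]
    exact ⟨(Fin.succ_ne_zero i).symm, Or.inl rfl⟩
  · intro i j hij
    have h := Subtype.ext_iff.1 hij
    exact Fin.succ_injective _ (f.injective h)
  · intro i j hij
    rw [starGraph_adj] at hij
    obtain ⟨hne, h | h⟩ := hij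
    · subst h
      obtain ⟨j', rfl⟩ := Fin.exists_succ_eq.2 hne.symm
      have := (p.2 j').2
      rw [mem_neighborFinset] at this
      simpa using this
    · subst h
      obtain ⟨i', rfl⟩ := Fin.exists_succ_eq.2 hne
      have := (p.2 i').2
      rw [mem_neighborFinset] at this
      simpa using this.symm
  · intro i j hij
    change (Fin.cons p.1 (fun i => (p.2 i : V)) : Fin 5 → V) i =
      (Fin.cons p.1 (fun i => (p.2 i : V)) : Fin 5 → V) j at hij
    induction i using Fin.cases with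
    | zero =>
      induction j using Fin.cases with
      | zero => rfl
      | succ j =>
        exfalso
        have := (p.2 j).2
        rw [mem_neighborFinset] at this
        simp at hij
        exact this.ne hij
    | succ i =>
      induction j using Fin.cases with
      | zero =>
        exfalso
        have := (p.2 i).2
        rw [mem_neighborFinset] at this
        simp at hij
        exact this.ne hij.symm
      | succ j =>
        simp only [Fin.cons_succ] at hij
        rw [p.2.injective (Subtype.ext hij)]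
  · intro f
    apply SimpleGraph.Copy.ext
    intro i
    induction i using Fin.cases with
    | zero => rfl
    | succ i => rfl
  · intro p
    rfl

/-- the number of stars `K_{1,4}` -/
theorem star_eq : T.copyCount (starGraph (0 : Fin 5)) = ∑ u, (T.degree u).choose 4 := by
  have h1 := copyCount_mul (G := T) (H := starGraph (0 : Fin 5))
  rw [card_copies_star, aut_star] at h1
  have h2 : ∀ u, (T.degree u).descFactorial 4 = 24 * (T.degree u).choose 4 := fun u => by
    rw [Nat.descFactorial_eq_factorial_mul_choose]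
    rfl
  simp only [h2] at h1
  rw [← mul_sum] at h1
  omega

theorem choose_le' (u : V) : ((x T u + 1).choose 4 : ℕ) = (T.degree u).choose 4 := by
  unfold x
  rcases Nat.eq_zero_or_pos (T.degree u) with h | h
  · rw [h]
    rfl
  · congr 1
    omega

end Pool.Agent.E8helper83.TP
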