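import Mathlib
import Pool.Agent.E8helper83.TPCount

/-!
Caterpillars with prescribed degrees on the spine and their numbers of paths, stars and Y-trees.
-/

set_option autoImplicit false
set_option linter.unusedSectionVars false

namespace Pool.Agent.E8helper83.TP

open Finset SimpleGraph

/-- a graph given by a parent function decreasing a rank is a tree -/
theorem isTree_of_parent {V : Type} [Finite V] (G : SimpleGraph V) (r : V) (p : V → V)
    (rk : V → ℕ) (h : ∀ u v, G.Adj u v ↔ (u ≠ r ∧ p u = v) ∨ (v ≠ r ∧ p v = u))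
    (hrk : ∀ v, v ≠ r → rk (p v) < rk v) : G.IsTree := by
  classical
  rw [isTree_iff_connected_and_card]
  constructor
  · have hreach : ∀ k : ℕ, ∀ v, rk v = k → G.Reachable v r := by
      intro k
      induction k using Nat.strong_induction_on with
      | _ k ih =>
        intro v hv
        by_cases hvr : v = r
        · subst hvr
          exact Reachable.refl _
        · have h1 : G.Adj v (p v) := (h _ _).2 (Or.inl ⟨hvr, rfl⟩)
          exact h1.reachable.trans (ih (rk (p v)) (hv ▸ hrk v hvr) _ rfl)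
    have : Nonempty V := ⟨r⟩
    exact ⟨fun u v => (hreach _ u rfl).trans (hreach _ v rfl).symm⟩
  · have e : Nat.card {v : V // v ≠ r} = Nat.card G.edgeSet := by
      refine Nat.card_congr (Equiv.ofBijective
        (fun v => ⟨s(v.1, p v.1), (h _ _).2 (Or.inl ⟨v.2, rfl⟩)⟩) ⟨?_, ?_⟩)
      · rintro ⟨u, hu⟩ ⟨v, hv⟩ huv
        have huv' := Sym2.eq_iff.1 (Subtype.ext_iff.1 huv)
        rcases huv' with ⟨h1, _⟩ | ⟨h1, h2⟩
        · exact Subtype.ext h1
        · exfalso
          have g1 := hrk u hu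
          have g2 := hrk v hv
          change u = p v at h1
          change p u = v at h2
          rw [h2] at g1
          rw [← h1] at g2
          omega
      · rintro ⟨e, he⟩
        induction e using Sym2.ind with
        | _ a b =>
          rw [mem_edgeSet, h] at he
          rcases he with ⟨h1, h2⟩ | ⟨h1, h2⟩
          · exact ⟨⟨a, h1⟩, by simp [h2]⟩
          · exact ⟨⟨b, h1⟩, by simp [h2, Sym2.eq_swap]⟩
    rw [← e]
    have := Fintype.ofFinite V
    rw [Nat.card_eq_fintype_card, Nat.card_eq_fintype_card, Fintype.card_subtype_compl,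
      Fintype.card_subtype_eq]
    have : 0 < Fintype.card V := Fintype.card_pos_iff.2 ⟨r⟩
    omega

/-- vertices: the spine vertices `(i, 0)`, `i < m + 2`, and the leaves `(i, j)`, `1 ≤ j ≤ y i - 1` -/
abbrev CV (m : ℕ) (y : ℕ → ℕ) : Type := Σ i : Fin (m + 2), Fin (y i - 1 + 1)

/-- the caterpillar -/
def cat (m : ℕ) (y : ℕ → ℕ) : SimpleGraph (CV m y) where
  Adj u v := (u.1 = v.1 ∧ ((u.2.val = 0 ∧ v.2.val ≠ 0) ∨ (u.2.val ≠ 0 ∧ v.2.val = 0))) ∨
    (u.2.val = 0 ∧ v.2.val = 0 ∧ (u.1.val + 1 = v.1.val ∨ v.1.val + 1 = u.1.val))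
  symm := ⟨fun u v h => by
    rcases h with ⟨h1, h2⟩ | ⟨h1, h2, h3⟩
    · exact Or.inl ⟨h1.symm, by tauto⟩
    · exact Or.inr ⟨h2, h1, by tauto⟩⟩
  loopless := ⟨fun u h => by
    rcases h with ⟨h1, h2⟩ | ⟨h1, h2, h3⟩
    · tauto
    · omega⟩

instance (m : ℕ) (y : ℕ → ℕ) : DecidableRel (cat m y).Adj := fun u v => by
  unfold cat
  infer_instance

variable {m : ℕ} {y : ℕ → ℕ}

/-- spine vertices -/
def sp (i : Fin (m + 2)) : CV m y := ⟨i, 0⟩

/-- leaves -/
def lf (i : Fin (m + 2)) (j : Fin (y i - 1)) : CV m y := ⟨i, j.succ⟩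

theorem sp_eq (a b : Fin (m + 2)) (j : Fin (y b - 1 + 1)) (hab : a = b) (hj : j.val = 0) :
    (⟨a, 0⟩ : CV m y) = ⟨b, j⟩ := by
  subst hab
  have : j = 0 := Fin.ext hj
  rw [this]

theorem cat_isTree (m : ℕ) (y : ℕ → ℕ) : (cat m y).IsTree := by
  refine isTree_of_parent _ (sp 0)
    (fun u => if u.2.val = 0 then sp ⟨u.1.val - 1, by omega⟩ else sp u.1)
    (fun u => 2 * u.1.val + if u.2.val = 0 then 0 else 1) ?_ ?_
  · have key : ∀ u v : CV m y, (u ≠ sp 0 ∧ (if u.2.val = 0 then sp ⟨u.1.val - 1, by omega⟩ else sp u.1) = v) ↔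
        ((u.1 = v.1 ∧ u.2.val ≠ 0 ∧ v.2.val = 0) ∨ (u.2.val = 0 ∧ v.2.val = 0 ∧ v.1.val + 1 = u.1.val)) := by
      rintro ⟨i, j⟩ ⟨i', j'⟩
      simp only [sp]
      constructor
      · rintro ⟨h1, h2⟩
        split_ifs at h2 with h
        · right
          rw [Sigma.mk.injEq] at h2
          obtain ⟨h3, h4⟩ := h2
          subst h3
          have h5 := eq_of_heq h4
          subst h5
          refine ⟨h, rfl, ?_⟩
          have : i.val ≠ 0 := by
            intro h0
            apply h1
            have hi : i = 0 := Fin.ext h0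
            subst hi
            have : j = 0 := Fin.ext h
            rw [this]
          change i.val - 1 + 1 = i.val
          omega
        · left
          rw [Sigma.mk.injEq] at h2
          obtain ⟨h3, h4⟩ := h2
          subst h3
          have h5 := eq_of_heq h4
          subst h5
          exact ⟨rfl, h, rfl⟩
      · rintro (⟨h1, h2, h3⟩ | ⟨h1, h2, h3⟩)
        · subst h1
          rw [if_neg h2]
          refine ⟨?_, ?_⟩
          · intro h
            rw [Sigma.mk.injEq] at h
            obtain ⟨h4, h5⟩ := h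
            subst h4
            have h6 := eq_of_heq h5
            rw [h6] at h2
            exact h2 rfl
          · have : j' = 0 := Fin.ext h3
            rw [this]
        · rw [if_pos h1]
          refine ⟨?_, ?_⟩
          · intro h
            rw [Sigma.mk.injEq] at h
            obtain ⟨h4, h5⟩ := h
            rw [h4] at h3
            simp at h3
          · exact sp_eq _ _ _ (Fin.ext (by change i.val - 1 = i'.val; omega)) h2
    intro u v
    rw [key, key]
    simp only [cat]
    constructor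
    · rintro (⟨h1, h2⟩ | ⟨h1, h2, h3⟩)
      · rcases h2 with h2 | h2
        · exact Or.inr (Or.inl ⟨h1.symm, h2.2, h2.1⟩)
        · exact Or.inl (Or.inl ⟨h1, h2.1, h2.2⟩)
      · rcases h3 with h3 | h3
        · exact Or.inr (Or.inr ⟨h2, h1, h3⟩)
        · exact Or.inl (Or.inr ⟨h1, h2, h3⟩)
    · rintro ((⟨h1, h2, h3⟩ | ⟨h1, h2, h3⟩) | (⟨h1, h2, h3⟩ | ⟨h1, h2, h3⟩))
      · exact Or.inl ⟨h1, Or.inr ⟨h2, h3⟩⟩
      · exact Or.inr ⟨h1, h2, Or.inr h3⟩
      · exact Or.inl ⟨h1.symm, Or.inl ⟨h3, h2⟩⟩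
      · exact Or.inr ⟨h2, h1, Or.inl h3⟩
  · rintro ⟨i, j⟩ h
    by_cases h0 : j.val = 0
    · have h5 : i.val ≠ 0 := by
        intro h0'
        apply h
        have hi : i = 0 := Fin.ext h0'
        subst hi
        have : j = 0 := Fin.ext h0
        rw [this]
        rfl
      have e : (if j.val = 0 then sp ⟨i.val - 1, by omega⟩ else sp i : CV m y) =
        sp ⟨i.val - 1, by omega⟩ := if_pos h0
      change 2 * ((if j.val = 0 then sp ⟨i.val - 1, by omega⟩ else sp i : CV m y).1.val) +
        (if ((if j.val = 0 then sp ⟨i.val - 1, by omega⟩ else sp i : CV m y).2.val = 0) then 0 else 1) <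
        2 * i.val + if j.val = 0 then 0 else 1
      rw [e, if_pos h0]
      change 2 * (i.val - 1) + (if ((0 : ℕ) = 0) then 0 else 1) < 2 * i.val + 0
      rw [if_pos rfl]
      omega
    · have e : (if j.val = 0 then sp ⟨i.val - 1, by omega⟩ else sp i : CV m y) = sp i := if_neg h0
      change 2 * ((if j.val = 0 then sp ⟨i.val - 1, by omega⟩ else sp i : CV m y).1.val) +
        (if ((if j.val = 0 then sp ⟨i.val - 1, by omega⟩ else sp i : CV m y).2.val = 0) then 0 else 1) <
        2 * i.val + if j.val = 0 then 0 else 1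
      rw [e, if_neg h0]
      change 2 * i.val + (if ((0 : ℕ) = 0) then 0 else 1) < 2 * i.val + 1
      rw [if_pos rfl]
      omega

/-- sums over the neighbours of a spine vertex -/
theorem sum_nb_sp {M : Type} [AddCommMonoid M] (i : Fin (m + 2)) (F : CV m y → M) :
    ∑ v ∈ (cat m y).neighborFinset (sp i), F v =
      (∑ j, F (lf i j)) + ∑ k : Fin (m + 2), if (i.val + 1 = k.val ∨ k.val + 1 = i.val) then F (sp k) else 0 := by
  have h1 : ∑ v ∈ (cat m y).neighborFinset (sp i), F v =
      ∑ v, if (cat m y).Adj (sp i) v then F v else 0 := by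
    rw [← sum_filter]
    refine sum_congr ?_ fun _ _ => rfl
    ext v
    simp
  rw [h1, Fintype.sum_sigma]
  have h2 : ∀ k : Fin (m + 2), (∑ j : Fin (y k - 1 + 1), if (cat m y).Adj (sp i) ⟨k, j⟩ then F ⟨k, j⟩ else 0) =
      (if i = k then ∑ j, F (lf k j) else 0) + if (i.val + 1 = k.val ∨ k.val + 1 = i.val) then F (sp k) else 0 := by
    intro k
    rw [Fin.sum_univ_succ, add_comm]
    congr 1
    · by_cases hik : i = k
      · subst hik
        rw [if_pos rfl]
        refine sum_congr rfl fun j _ => ?_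
        rw [if_pos]
        · rfl
        · left
          exact ⟨rfl, Or.inl ⟨rfl, by simp⟩⟩
      · rw [if_neg hik]
        refine sum_eq_zero fun j _ => ?_
        rw [if_neg]
        rintro (⟨h, _⟩ | ⟨_, h, _⟩)
        · exact hik h
        · simp at h
    · have : ((cat m y).Adj (sp i) ⟨k, 0⟩) ↔ (i.val + 1 = k.val ∨ k.val + 1 = i.val) := by
        constructor
        · rintro (⟨_, h⟩ | ⟨_, _, h⟩)
          · simp [sp] at h
          · exact h
        · intro h
          exact Or.inr ⟨rfl, rfl, h⟩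
      simp only [this]
      rfl
  rw [sum_congr rfl fun k _ => h2 k, sum_add_distrib]
  congr 1
  simp

/-- sums over the neighbours of a leaf -/
theorem nb_lf (i : Fin (m + 2)) (j : Fin (y i - 1)) :
    (cat m y).neighborFinset (lf i j) = {sp i} := by
  ext ⟨k, l⟩
  rw [mem_neighborFinset, mem_singleton]
  constructor
  · rintro (⟨h1, h2⟩ | ⟨h1, h2, h3⟩)
    · simp only [lf] at h1 h2
      subst h1
      simp only [Fin.val_succ, ne_eq, Nat.add_eq_zero_iff, one_ne_zero, and_false, not_false_eq_true,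
        false_and, true_and, false_or] at h2
      have : l = 0 := Fin.ext h2
      rw [this]
      rfl
    · simp [lf] at h1
  · intro h
    rw [h]
    exact Or.inl ⟨rfl, Or.inr ⟨by simp [lf], rfl⟩⟩

/-- the neighbouring spine vertices: two of them except at the ends -/
theorem sum_spine {M : Type} [AddCommMonoid M] (i : ℕ) (hi : i < m + 2) (F : ℕ → M) :
    (∑ k : Fin (m + 2), if (i + 1 = k.val ∨ k.val + 1 = i) then F k else 0) =
      (if 0 < i then F (i - 1) else 0) + if i + 1 < m + 2 then F (i + 1) else 0 := by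
  have h1 : (∑ k : Fin (m + 2), if (i + 1 = k.val ∨ k.val + 1 = i) then F k else 0) =
      ∑ k ∈ range (m + 2), if (i + 1 = k ∨ k + 1 = i) then F k else 0 :=
    Fin.sum_univ_eq_sum_range (fun k => if (i + 1 = k ∨ k + 1 = i) then F k else 0) (m + 2)
  have h2 : ∀ k ∈ range (m + 2), (if (i + 1 = k ∨ k + 1 = i) then F k else 0) =
      (if k + 1 = i then F k else 0) + if i + 1 = k then F k else 0 := by
    intro k _
    by_cases h : i + 1 = k
    · rw [if_pos (Or.inl h), if_neg (by omega), if_pos h, zero_add]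
    · by_cases h' : k + 1 = i
      · rw [if_pos (Or.inr h'), if_pos h', if_neg h, add_zero]
      · rw [if_neg (by tauto), if_neg h', if_neg h, add_zero]
  rw [h1, sum_congr rfl h2, sum_add_distrib]
  congr 1
  · by_cases h : 0 < i
    · rw [if_pos h, sum_eq_single (i - 1)]
      · rw [if_pos (by omega)]
      · intro b _ hb
        rw [if_neg (by omega)]
      · intro h'
        rw [mem_range] at h'
        omega
    · rw [if_neg h]
      refine sum_eq_zero fun k _ => ?_
      rw [if_neg (by omega)]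
  · by_cases h : i + 1 < m + 2
    · rw [if_pos h, sum_eq_single (i + 1)]
      · rw [if_pos rfl]
      · intro b _ hb
        rw [if_neg (by omega)]
      · intro h'
        rw [mem_range] at h'
        omega
    · rw [if_neg h]
      refine sum_eq_zero fun k hk => ?_
      rw [mem_range] at hk
      rw [if_neg (by omega)]

variable (hy0 : y 0 = 0) (hym : y (m + 1) = 0) (hy : ∀ i, 1 ≤ i → i ≤ m → 1 ≤ y i)

include hy0 hym hy in
theorem x_sp (i : Fin (m + 2)) : x (cat m y) (sp i) = y i := by
  have h1 := sum_nb_sp (m := m) (y := y) i (fun _ => (1 : ℕ))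
  have h2 := sum_spine (m := m) i.val i.2 (fun _ => (1 : ℕ))
  rw [h2] at h1
  simp only [sum_const, card_neighborFinset_eq_degree, card_univ, Fintype.card_fin, smul_eq_mul,
    mul_one] at h1
  unfold x
  rw [h1]
  have hi := i.2
  rcases Nat.eq_zero_or_pos i.val with h | h
  · rw [h, hy0]
    simp
  · rcases Nat.lt_or_ge i.val (m + 1) with h' | h'
    · have := hy i.val h (by omega)
      rw [if_pos h, if_pos (by omega)]
      omega
    · have : i.val = m + 1 := by omega
      rw [this, hym]
      simp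

theorem deg_lf (i : Fin (m + 2)) (j : Fin (y i - 1)) : (cat m y).degree (lf i j) = 1 := by
  rw [← card_neighborFinset_eq_degree, nb_lf, card_singleton]

theorem x_lf (i : Fin (m + 2)) (j : Fin (y i - 1)) : x (cat m y) (lf i j) = 0 := by
  unfold x
  rw [deg_lf]

/-- sums over the vertices -/
theorem sum_CV {M : Type} [AddCommMonoid M] (F : CV m y → M) :
    ∑ u, F u = ∑ i : Fin (m + 2), (F (sp i) + ∑ j, F (lf i j)) := by
  rw [Fintype.sum_sigma]
  refine sum_congr rfl fun i _ => ?_
  rw [Fin.sum_univ_succ]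
  rfl

theorem card_CV_ge : m + 2 ≤ Fintype.card (CV m y) := by
  have h1 : Fintype.card (CV m y) = ∑ _u : CV m y, 1 := by simp
  rw [h1, sum_CV]
  calc m + 2 = ∑ _i : Fin (m + 2), 1 := by simp
    _ ≤ _ := sum_le_sum fun i _ => Nat.le_add_right _ _

/-- double sums over two different neighbours, as a difference -/
theorem pair_sum {ι : Type} [DecidableEq ι] (N : Finset ι) (f : ι → ℕ) :
    ((∑ b ∈ N, ∑ d ∈ N.erase b, f b * f d : ℕ) : ℤ) =
      (∑ v ∈ N, (f v : ℤ)) ^ 2 - ∑ v ∈ N, (f v : ℤ) ^ 2 := by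
  push_cast
  rw [sq, sum_mul_sum, ← sum_sub_distrib]
  refine sum_congr rfl fun b hb => ?_
  rw [← add_sum_erase _ _ hb]
  ring

include hy0 hym hy in
theorem cat_path : (((cat m y).copyCount (pathGraph 5) : ℕ) : ℤ) =
    ∑ i ∈ range m, (y i : ℤ) * y (i + 2) := by
  have hP := two_path (cat_isTree m y).isAcyclic
  have hP' : 2 * (((cat m y).copyCount (pathGraph 5) : ℕ) : ℤ) =
      ∑ c, ((∑ b ∈ (cat m y).neighborFinset c, ∑ d ∈ ((cat m y).neighborFinset c).erase b,
        x (cat m y) b * x (cat m y) d : ℕ) : ℤ) := by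
    rw [← Nat.cast_sum, ← hP]
    push_cast
    ring
  rw [sum_CV] at hP'
  have h1 : ∀ i : Fin (m + 2), ((∑ b ∈ (cat m y).neighborFinset (sp i), ∑ d ∈ ((cat m y).neighborFinset (sp i)).erase b,
        x (cat m y) b * x (cat m y) d : ℕ) : ℤ) =
      if 0 < i.val ∧ i.val < m + 1 then 2 * ((y (i.val - 1) : ℤ) * y (i.val + 1)) else 0 := by
    intro i
    rw [pair_sum, sum_nb_sp i (fun v => (x (cat m y) v : ℤ)), sum_nb_sp i (fun v => (x (cat m y) v : ℤ) ^ 2)]
    simp only [x_lf, x_sp hy0 hym hy]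
    rw [sum_spine i.val i.2 (fun k => (y k : ℤ)), sum_spine i.val i.2 (fun k => (y k : ℤ) ^ 2)]
    have hi := i.2
    rcases Nat.eq_zero_or_pos i.val with h | h
    · rw [h]
      simp
    · rcases Nat.lt_or_ge i.val (m + 1) with h' | h'
      · rw [if_pos h, if_pos (by omega), if_pos h, if_pos (by omega), if_pos ⟨h, h'⟩]
        simp
        ring
      · rw [if_pos h, if_neg (by omega), if_pos h, if_neg (by omega), if_neg (by omega)]
        simp
  have h2 : ∀ (i : Fin (m + 2)) (j : Fin (y i - 1)), ((∑ b ∈ (cat m y).neighborFinset (lf i j), ∑ d ∈ ((cat m y).neighborFinset (lf i j)).erase b,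
        x (cat m y) b * x (cat m y) d : ℕ) : ℤ) = 0 := by
    intro i j
    rw [nb_lf]
    simp
  simp only [h1, h2, sum_const_zero, add_zero] at hP'
  rw [Fin.sum_univ_eq_sum_range (fun i => if 0 < i ∧ i < m + 1 then 2 * ((y (i - 1) : ℤ) * y (i + 1)) else 0) (m + 2)] at hP'
  rw [sum_range_succ, sum_range_succ'] at hP'
  simp only [lt_irrefl, and_false, if_false, add_zero, false_and, Nat.succ_eq_add_one] at hP'
  have h3 : ∑ k ∈ range m, (if 0 < k + 1 ∧ k + 1 < m + 1 then 2 * ((y (k + 1 - 1) : ℤ) * y (k + 1 + 1)) else 0) =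
      2 * ∑ i ∈ range m, (y i : ℤ) * y (i + 2) := by
    rw [mul_sum]
    refine sum_congr rfl fun k hk => ?_
    rw [mem_range] at hk
    rw [if_pos (by omega)]
    rfl
  rw [h3] at hP'
  linarith

include hy0 hym hy in
theorem cat_y : 2 * (((cat m y).copyCount yTree : ℕ) : ℤ) =
    ∑ i ∈ range m, ((y i : ℤ) + y (i + 2)) * (y (i + 1) * (y (i + 1) - 1)) := by
  have hY := two_y (cat_isTree m y).isAcyclic
  have hY' : 2 * (((cat m y).copyCount yTree : ℕ) : ℤ) =
      ∑ u, (∑ v ∈ (cat m y).neighborFinset u, (x (cat m y) v : ℤ)) *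
        (((x (cat m y) u) * (x (cat m y) u - 1) : ℕ) : ℤ) := by
    have : (2 * (((cat m y).copyCount yTree : ℕ) : ℤ)) = ((2 * (cat m y).copyCount yTree : ℕ) : ℤ) := by
      push_cast; ring
    rw [this, hY, Nat.cast_sum]
    refine sum_congr rfl fun u _ => ?_
    rw [Nat.cast_sum, sum_mul]
    refine sum_congr rfl fun v _ => ?_
    push_cast
    ring
  rw [sum_CV] at hY'
  have h1 : ∀ i : Fin (m + 2), (∑ v ∈ (cat m y).neighborFinset (sp i), (x (cat m y) v : ℤ)) =
      (if 0 < i.val then (y (i.val - 1) : ℤ) else 0) + if i.val + 1 < m + 2 then (y (i.val + 1) : ℤ) else 0 := by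
    intro i
    rw [sum_nb_sp i (fun v => (x (cat m y) v : ℤ))]
    simp only [x_lf, x_sp hy0 hym hy]
    rw [sum_spine i.val i.2 (fun k => (y k : ℤ))]
    simp
  simp only [h1, x_lf, x_sp hy0 hym hy] at hY'
  simp only [zero_mul, Nat.cast_zero, mul_zero, sum_const_zero, add_zero] at hY'
  rw [Fin.sum_univ_eq_sum_range (fun i => ((if 0 < i then (y (i - 1) : ℤ) else 0) +
    if i + 1 < m + 2 then (y (i + 1) : ℤ) else 0) * ((y i * (y i - 1) : ℕ) : ℤ)) (m + 2)] at hY'
  rw [sum_range_succ, sum_range_succ'] at hY'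
  rw [hY', hy0, hym]
  simp only [zero_mul, Nat.cast_zero, mul_zero, add_zero]
  refine sum_congr rfl fun i hi => ?_
  rw [mem_range] at hi
  rw [if_pos (by omega), if_pos (by omega)]
  have h2 : ((y (i + 1) * (y (i + 1) - 1) : ℕ) : ℤ) = (y (i + 1) : ℤ) * (y (i + 1) - 1) := by
    have := hy (i + 1) (by omega) (by omega)
    rw [Nat.cast_mul, Nat.cast_sub this]
    simp
  rw [h2]
  rfl

include hy0 hym hy in
theorem cat_star : (cat m y).copyCount (starGraph (0 : Fin 5)) =
    ∑ i ∈ range m, (y (i + 1) + 1).choose 4 := by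
  rw [star_eq, sum_CV]
  simp only [deg_lf]
  have h0 : ∀ i : Fin (m + 2), ((cat m y).degree (sp i)).choose 4 = (y i + 1).choose 4 := by
    intro i
    rw [← x_sp hy0 hym hy i]
    have := choose_le' (T := cat m y) (sp i)
    exact this.symm
  simp only [h0]
  have h1 : ((1 : ℕ).choose 4) = 0 := rfl
  simp only [h1, sum_const_zero, add_zero]
  rw [Fin.sum_univ_eq_sum_range (fun i => (y i + 1).choose 4) (m + 2), sum_range_succ, sum_range_succ',
    hy0, hym]
  simp [h1]

end Pool.Agent.E8helper83.TP
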