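import Mathlib
import Pool.Agent.E8helper83.TPCount

/-!
The inequality `Y ≤ 9 S + P + 6` for trees.

Every edge `u v` receives the weight `w(x u, x v)` at `u` and `w(x v, x u)` at `v`, `x = deg - 1`.
The two weights of an edge sum to at least `12 + x u x v (x u + x v - 2)`, and the weights at `u` sum
to at most `12 + 18 C(x u + 1, 4) + 2 e₂(x on the neighbours of u)`.
-/

set_option autoImplicit false
set_option linter.unusedSectionVars false

namespace Pool.Agent.E8helper83.TP

open Finset SimpleGraph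

def be (a : ℕ) : ℤ :=
  if a = 1 then 7 else if a = 2 then 7 else if a = 3 then 11 else if a = 4 then 19 else
  if a = 5 then 33 else a ^ 2

def ga (a : ℕ) : ℤ := if a ≤ 5 then 0 else a ^ 2 + 6

def w (a c : ℕ) : ℤ :=
  if a = 0 then (if c = 0 then 6 else 12) else if c = 0 then 0 else be a * c + ga a - c ^ 2

theorem w_edge (a c : ℕ) : 12 + (a : ℤ) * c * (a + c - 2) ≤ w a c + w c a := by
  rcases Nat.eq_zero_or_pos a with rfl | ha
  · rcases Nat.eq_zero_or_pos c with rfl | hc
    · simp [w]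
    · simp [w, hc.ne']
  rcases Nat.eq_zero_or_pos c with rfl | hc
  · simp [w, ha.ne']
  simp only [w, ha.ne', hc.ne', if_false]
  rcases Nat.lt_or_ge a 6 with ha6 | ha6
  · rcases Nat.lt_or_ge c 6 with hc6 | hc6
    · interval_cases a <;> interval_cases c <;> simp [be, ga]
    · have hb : be c = (c : ℤ) ^ 2 := by
        unfold be
        rw [if_neg (by omega), if_neg (by omega), if_neg (by omega), if_neg (by omega),
          if_neg (by omega)]
      have hg : ga c = (c : ℤ) ^ 2 + 6 := by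
        unfold ga
        rw [if_neg (by omega)]
      have hc' : (6 : ℤ) ≤ c := by exact_mod_cast hc6
      rw [hb, hg]
      interval_cases a <;> simp [be, ga] <;> nlinarith
  · have hb : be a = (a : ℤ) ^ 2 := by
      unfold be
      rw [if_neg (by omega), if_neg (by omega), if_neg (by omega), if_neg (by omega),
        if_neg (by omega)]
    have hg : ga a = (a : ℤ) ^ 2 + 6 := by
      unfold ga
      rw [if_neg (by omega)]
    have ha' : (6 : ℤ) ≤ a := by exact_mod_cast ha6
    rw [hb, hg]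
    rcases Nat.lt_or_ge c 6 with hc6 | hc6
    · interval_cases c <;> simp [be, ga] <;> nlinarith
    · have hb : be c = (c : ℤ) ^ 2 := by
        unfold be
        rw [if_neg (by omega), if_neg (by omega), if_neg (by omega), if_neg (by omega),
          if_neg (by omega)]
      have hg : ga c = (c : ℤ) ^ 2 + 6 := by
        unfold ga
        rw [if_neg (by omega)]
      have hc' : (6 : ℤ) ≤ c := by exact_mod_cast hc6
      rw [hb, hg]
      nlinarith

theorem choose_four (a : ℕ) : 24 * (((a + 1).choose 4 : ℕ) : ℤ) = (a + 1) * a * (a - 1) * (a - 2) := by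
  have h := Nat.descFactorial_eq_factorial_mul_choose (a + 1) 4
  have h2 : (Nat.factorial 4 : ℕ) = 24 := rfl
  rw [h2] at h
  have h3 : (((a + 1).descFactorial 4 : ℕ) : ℤ) = (a + 1) * a * (a - 1) * (a - 2) := by
    rcases Nat.lt_or_ge a 3 with h | h
    · interval_cases a <;> simp
    · obtain ⟨b, rfl⟩ := Nat.exists_eq_add_of_le h
      simp only [Nat.descFactorial]
      have e1 : (3 + b + 1 - 0 : ℕ) = b + 4 := by omega
      have e2 : (3 + b + 1 - 1 : ℕ) = b + 3 := by omega
      have e3 : (3 + b + 1 - 2 : ℕ) = b + 2 := by omega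
      have e4 : (3 + b + 1 - 3 : ℕ) = b + 1 := by omega
      rw [e1, e2, e3, e4]
      push_cast
      ring
  rw [h] at h3
  exact_mod_cast h3

theorem sq_ge (t s : ℤ) : (2 * t + 1) * s - t * (t + 1) ≤ s ^ 2 := by
  have h : 0 ≤ (s - t) * (s - t - 1) := by
    rcases le_or_gt s t with h | h
    · nlinarith
    · have : 0 ≤ s - t - 1 := by omega
      have : 0 ≤ s - t := by omega
      positivity
  nlinarith

theorem be_bound (a : ℕ) (ha : 1 ≤ a) (s : ℤ) :
    be a * s + ga a * (a + 1) ≤ s ^ 2 + (12 + 18 * (((a + 1).choose 4 : ℕ) : ℤ)) := by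
  rcases Nat.lt_or_ge a 6 with ha6 | ha6
  · interval_cases a
    · have := sq_ge 3 s
      simp [be, ga, Nat.choose]
      linarith
    · have := sq_ge 3 s
      simp [be, ga, Nat.choose]
      linarith
    · have := sq_ge 5 s
      simp [be, ga, Nat.choose]
      linarith
    · have := sq_ge 9 s
      simp [be, ga, Nat.choose]
      linarith
    · have := sq_ge 16 s
      simp [be, ga, Nat.choose]
      linarith
  · have hb : be a = (a : ℤ) ^ 2 := by
      unfold be
      rw [if_neg (by omega), if_neg (by omega), if_neg (by omega), if_neg (by omega),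
        if_neg (by omega)]
    have hg : ga a = (a : ℤ) ^ 2 + 6 := by
      unfold ga
      rw [if_neg (by omega)]
    rw [hb, hg]
    have h4 := choose_four a
    have ha' : (6 : ℤ) ≤ a := by exact_mod_cast ha6
    obtain ⟨b, hb⟩ : ∃ b : ℤ, (a : ℤ) = b + 6 := ⟨a - 6, by ring⟩
    have hb0 : 0 ≤ b := by linarith
    have h5 : 4 * ((a : ℤ) ^ 2 * s) ≤ 4 * s ^ 2 + (a : ℤ) ^ 4 := by nlinarith [sq_nonneg (2 * s - (a : ℤ) ^ 2)]
    have h6 : (a : ℤ) ^ 4 + 4 * ((a ^ 2 + 6) * (a + 1)) ≤
        48 + 3 * ((a + 1) * a * (a - 1) * (a - 2)) := by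
      rw [hb]
      have : 48 + 3 * ((b + 6 + 1) * (b + 6) * (b + 6 - 1) * (b + 6 - 2)) -
          ((b + 6) ^ 4 + 4 * (((b + 6) ^ 2 + 6) * (b + 6 + 1))) =
          2 * b ^ 4 + 38 * b ^ 3 + 245 * b ^ 2 + 546 * b + 96 := by ring
      nlinarith [pow_nonneg hb0 2, pow_nonneg hb0 3, pow_nonneg hb0 4]
    have h7 : 4 * (18 * (((a + 1).choose 4 : ℕ) : ℤ)) = 3 * ((a + 1) * a * (a - 1) * (a - 2)) := by
      linarith
    linarith

theorem w_vertex {ι : Type} [DecidableEq ι] (N : Finset ι) (f : ι → ℕ) (a : ℕ)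
    (hN : N.card ≤ a + 1) :
    ∑ v ∈ N, w a (f v) ≤
      ((∑ b ∈ N, ∑ d ∈ N.erase b, f b * f d : ℕ) : ℤ) + 18 * (((a + 1).choose 4 : ℕ) : ℤ) + 12 := by
  have hpos : 0 ≤ ((∑ b ∈ N, ∑ d ∈ N.erase b, f b * f d : ℕ) : ℤ) := Nat.cast_nonneg _
  rcases Nat.eq_zero_or_pos a with rfl | ha
  · have h1 : ∑ v ∈ N, w 0 (f v) ≤ ∑ v ∈ N, (12 : ℤ) := by
      refine sum_le_sum fun v _ => ?_
      unfold w
      rw [if_pos rfl]
      split_ifs <;> norm_num
    rw [sum_const, nsmul_eq_mul] at h1
    have h2 : (N.card : ℤ) ≤ 1 := by exact_mod_cast hN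
    have h3 : (0 : ℤ) ≤ (((0 + 1 : ℕ).choose 4 : ℕ) : ℤ) := Nat.cast_nonneg _
    linarith
  · have hg : 0 ≤ ga a := by
      unfold ga
      split_ifs <;> positivity
    have h1 : ∑ v ∈ N, w a (f v) ≤ ∑ v ∈ N, (be a * (f v : ℤ) + ga a - (f v : ℤ) ^ 2) := by
      refine sum_le_sum fun v _ => ?_
      unfold w
      rw [if_neg ha.ne']
      split_ifs with h
      · rw [h]
        simpa using hg
      · exact le_rfl
    have h2 : ∑ v ∈ N, (be a * (f v : ℤ) + ga a - (f v : ℤ) ^ 2) =
        be a * ∑ v ∈ N, (f v : ℤ) + N.card * ga a - ∑ v ∈ N, (f v : ℤ) ^ 2 := by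
      rw [sum_sub_distrib, sum_add_distrib, ← mul_sum, sum_const, nsmul_eq_mul]
    have h3 : ((∑ b ∈ N, ∑ d ∈ N.erase b, f b * f d : ℕ) : ℤ) =
        (∑ v ∈ N, (f v : ℤ)) ^ 2 - ∑ v ∈ N, (f v : ℤ) ^ 2 := by
      push_cast
      rw [sq, sum_mul_sum, ← sum_sub_distrib]
      refine sum_congr rfl fun b hb => ?_
      rw [← add_sum_erase _ _ hb]
      ring
    have h4 := be_bound a ha (∑ v ∈ N, (f v : ℤ))
    have h5 : (N.card : ℤ) ≤ a + 1 := by exact_mod_cast hN
    have h6 : (N.card : ℤ) * ga a ≤ ga a * (a + 1) := by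
      rw [mul_comm]
      exact mul_le_mul_of_nonneg_left h5 hg
    rw [h3]
    linarith

variable {V : Type} [Fintype V] [DecidableEq V] {T : SimpleGraph V} [DecidableRel T.Adj]

theorem sum_swap (F : V → V → ℤ) : ∑ u, ∑ v ∈ T.neighborFinset u, F u v =
    ∑ u, ∑ v ∈ T.neighborFinset u, F v u := by
  have h : ∀ G : V → V → ℤ, ∑ u, ∑ v ∈ T.neighborFinset u, G u v =
      ∑ u, ∑ v, if T.Adj u v then G u v else 0 := by
    intro G
    refine sum_congr rfl fun u _ => ?_
    rw [← sum_filter]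
    refine sum_congr ?_ fun _ _ => rfl
    ext v
    simp
  rw [h, h, sum_comm]
  refine sum_congr rfl fun u _ => sum_congr rfl fun v _ => ?_
  simp only [T.adj_comm v u]

theorem deg_le (u : V) : (T.neighborFinset u).card ≤ x T u + 1 := by
  rw [card_neighborFinset_eq_degree]
  unfold x
  omega

theorem choose_le (u : V) : ((x T u + 1).choose 4 : ℕ) = (T.degree u).choose 4 := by
  unfold x
  rcases Nat.eq_zero_or_pos (T.degree u) with h | h
  · rw [h]
    rfl
  · congr 1
    omega

theorem ineq (hT : T.IsTree) :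
    T.copyCount yTree ≤ 9 * T.copyCount (starGraph (0 : Fin 5)) + T.copyCount (pathGraph 5) + 6 := by
  have hP := two_path hT.isAcyclic
  have hY := two_y hT.isAcyclic
  have hS := star_eq (T := T)
  have hE := hT.card_edgeFinset
  have hdeg := T.sum_degrees_eq_twice_card_edges
  -- the vertices
  have hv : ∑ u, ∑ v ∈ T.neighborFinset u, w (x T u) (x T v) ≤
      2 * (T.copyCount (pathGraph 5) : ℤ) + 18 * (T.copyCount (starGraph (0 : Fin 5)) : ℤ) +
        12 * Fintype.card V := by
    have h1 : ∀ u ∈ (univ : Finset V), ∑ v ∈ T.neighborFinset u, w (x T u) (x T v) ≤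
        ((∑ b ∈ T.neighborFinset u, ∑ d ∈ (T.neighborFinset u).erase b, x T b * x T d : ℕ) : ℤ) +
          18 * (((T.degree u).choose 4 : ℕ) : ℤ) + 12 := by
      intro u _
      have := w_vertex (T.neighborFinset u) (x T) (x T u) (deg_le u)
      rw [choose_le] at this
      exact this
    refine (sum_le_sum h1).trans (le_of_eq ?_)
    rw [sum_add_distrib, sum_add_distrib, ← Nat.cast_sum, ← hP, ← mul_sum, ← Nat.cast_sum, ← hS]
    simp
    ring
  -- the edges
  have he : 24 * (T.edgeFinset.card : ℤ) + 4 * (T.copyCount yTree : ℤ) ≤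
      2 * ∑ u, ∑ v ∈ T.neighborFinset u, w (x T u) (x T v) := by
    have h1 : 2 * ∑ u, ∑ v ∈ T.neighborFinset u, w (x T u) (x T v) =
        ∑ u, ∑ v ∈ T.neighborFinset u, (w (x T u) (x T v) + w (x T v) (x T u)) := by
      rw [two_mul]
      nth_rewrite 2 [sum_swap (fun u v => w (x T u) (x T v))]
      rw [← sum_add_distrib]
      refine sum_congr rfl fun u _ => ?_
      rw [← sum_add_distrib]
    rw [h1]
    have h2 : ∑ u, ∑ v ∈ T.neighborFinset u, (12 + (x T u : ℤ) * x T v * (x T u + x T v - 2)) ≤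
        ∑ u, ∑ v ∈ T.neighborFinset u, (w (x T u) (x T v) + w (x T v) (x T u)) :=
      sum_le_sum fun u _ => sum_le_sum fun v _ => w_edge _ _
    refine le_trans (le_of_eq ?_) h2
    have h3 : ∑ u, ∑ v ∈ T.neighborFinset u, (12 + (x T u : ℤ) * x T v * (x T u + x T v - 2)) =
        12 * ∑ u, (T.degree u : ℤ) + ∑ u, ∑ v ∈ T.neighborFinset u, ((x T v : ℤ) * (x T u * (x T u - 1))) +
          ∑ u, ∑ v ∈ T.neighborFinset u, ((x T u : ℤ) * (x T v * (x T v - 1))) := by
      rw [mul_sum, ← sum_add_distrib, ← sum_add_distrib]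
      refine sum_congr rfl fun u _ => ?_
      have : (12 : ℤ) * T.degree u = ∑ v ∈ T.neighborFinset u, (12 : ℤ) := by
        rw [sum_const, card_neighborFinset_eq_degree, nsmul_eq_mul]
        ring
      rw [this, ← sum_add_distrib, ← sum_add_distrib]
      refine sum_congr rfl fun v _ => ?_
      ring
    rw [h3, ← sum_swap (fun u v => (x T v : ℤ) * (x T u * (x T u - 1)))]
    have h4 : ∑ u, ∑ v ∈ T.neighborFinset u, ((x T v : ℤ) * (x T u * (x T u - 1))) =
        2 * (T.copyCount yTree : ℤ) := by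
      have h5 : (2 * (T.copyCount yTree : ℤ)) = ((2 * T.copyCount yTree : ℕ) : ℤ) := by push_cast; ring
      rw [h5, hY]
      push_cast
      refine sum_congr rfl fun u _ => sum_congr rfl fun v _ => ?_
      rcases Nat.eq_zero_or_pos (x T u) with h | h
      · rw [h]; simp
      · rw [Nat.cast_sub h]
        simp
    rw [h4]
    have h6 : ∑ u, (T.degree u : ℤ) = 2 * T.edgeFinset.card := by exact_mod_cast hdeg
    rw [h6]
    ring
  have hE' : (T.edgeFinset.card : ℤ) + 1 = Fintype.card V := by exact_mod_cast hE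
  have : (T.copyCount yTree : ℤ) ≤
      9 * T.copyCount (starGraph (0 : Fin 5)) + T.copyCount (pathGraph 5) + 6 := by linarith
  exact_mod_cast this

end Pool.Agent.E8helper83.TP
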